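import Pool.Agent.V8H34.CR.Sic
import Pool.Agent.V8H34.CR.Dpl
import Pool.Agent.V8H34.CR.Mvg
import Pool.Agent.V8H34.CR.Dv
import Pool.Agent.V8H34.CR.Pw
import Pool.Agent.V8H34.CR.Moc
import Pool.Agent.V8H34.CR.Lup
import Pool.Agent.V8H34.CR.Chr
import Pool.Agent.V8H34.CR.Zsb
import Pool.Agent.V8H34.CR.Tnb
import Pool.Agent.V8H34.CR.Fd
import Pool.Agent.V8H34.CR.Win
import Pool.Agent.V8H34.CR.Low
import Pool.Agent.V8H34.CR.Hb
import Pool.Agent.Q53.CR.SDB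
import Pool.Agent.Q53.CR.SHB

/-!
# Project CR: assembly of `S_SIC`
-/

set_option autoImplicit false

namespace Pool.Agent.V8H54.RS

open Pool.Agent.Q236.CR Pool.Agent.V8H34.CR

theorem chr_all : S_CHR :=
  Chr.chr (zsb tnb Pool.Agent.Q53.CR.shb) Pool.Agent.Q53.CR.sdb

theorem dpl_all : S_DPL :=
  dpl Hb.hb1 (mvg dv) (Pw.pw chr_all (Moc.moc (Lzf.lzf (Lup.lup chr_all)))) chr_all Fd.fd

theorem sic_all : S_SIC := sic dpl_all Win.win low Fd.fd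

end Pool.Agent.V8H54.RS
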