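import Mathlib
import Pool.Agent.V8H34.TR.Fin3

/-!
# Sums of a prime and a small square: the transference theorem, reflected
-/

set_option autoImplicit false

namespace Pool.Agent.V8H54.RS

open Finset Filter Topology
open Pool.Agent.V8H34.TR (ind dif gq transf)

theorem ev_rp (C : ℝ) {s : ℝ} (hs : 0 < s) : ∀ᶠ X : ℕ in atTop, C ≤ (X : ℝ) ^ s :=
  ((tendsto_rpow_atTop hs).comp tendsto_natCast_atTop_atTop).eventually (eventually_ge_atTop C)

theorem ev_lrp (k : ℕ) {s c : ℝ} (hs : 0 < s) (hc : 0 < c) :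
    ∀ᶠ X : ℕ in atTop, Real.log X ^ k ≤ c * (X : ℝ) ^ s := by
  have h := (isLittleO_log_rpow_rpow_atTop (k : ℝ) hs).def hc
  have h2 := tendsto_natCast_atTop_atTop.eventually h
  filter_upwards [h2, eventually_ge_atTop 1] with X hX hX1
  have hX1' : (1 : ℝ) ≤ X := by exact_mod_cast hX1
  have h3 : 0 ≤ Real.log X := Real.log_nonneg hX1'
  rw [Real.rpow_natCast, Real.norm_of_nonneg (by positivity), Real.norm_of_nonneg (by positivity)] at hX
  exact hX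

/-- Chebyshev -/
theorem ev_pi2 : ∀ᶠ N : ℕ in atTop, (Nat.primeCounting N : ℝ) ≤ 2 * N / Real.log N := by
  have h := Chebyshev.eventually_primeCounting_le (ε := 1 / 2) (by norm_num)
  have h2 := tendsto_natCast_atTop_atTop.eventually h
  filter_upwards [h2, eventually_ge_atTop 2] with N hN hN2
  rw [Nat.floor_natCast] at hN
  refine hN.trans ?_
  have hlog : 0 < Real.log N := Real.log_pos (by exact_mod_cast hN2)
  apply div_le_div_of_nonneg_right _ hlog.le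
  have h4 : Real.log 4 ≤ 3 / 2 := by
    have h5 : Real.log 4 = 2 * Real.log 2 := by
      rw [show (4 : ℝ) = 2 ^ 2 by norm_num, Real.log_pow]
      norm_num
    have := Real.log_two_lt_d9
    linarith
  have hN0 : (0 : ℝ) ≤ N := by positivity
  nlinarith

open Classical in
/-- the numbers `-p`, `p` a prime of `Q` in `(y, X]` -/
noncomputable def NQ (Q : Set ℕ) (y X : ℕ) : Finset ℤ :=
  ((Icc 1 X).filter (fun p => p.Prime ∧ p ∈ Q ∧ y < p)).image (fun p : ℕ => -(p : ℤ))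

open Classical in
/-- the indicator of the primes of `Q` -/
noncomputable def fQ (Q : Set ℕ) (n : ℕ) : ℝ := if n.Prime ∧ n ∈ Q then 1 else 0

theorem fQ_nonneg (Q : Set ℕ) (n : ℕ) : 0 ≤ fQ Q n := by
  unfold fQ
  split_ifs <;> norm_num

theorem fQ_le (Q : Set ℕ) (n : ℕ) : fQ Q n ≤ 1 := by
  unfold fQ
  split_ifs <;> norm_num

theorem NQ_rough (Q : Set ℕ) {y X : ℕ} (hy : 1 ≤ y) {η : ℝ} (hη : η ≤ 1) :
    ∀ n ∈ NQ Q y X, ∀ p : ℕ, p.Prime → (p : ℝ) ≤ (y : ℝ) ^ η → ¬ (p : ℤ) ∣ n := by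
  classical
  intro n hn p hp hpy hd
  unfold NQ at hn
  rw [mem_image] at hn
  obtain ⟨q, hq, rfl⟩ := hn
  rw [mem_filter] at hq
  rw [dvd_neg] at hd
  have h1 : p ∣ q := by exact_mod_cast hd
  have h2 := (Nat.prime_dvd_prime_iff_eq hp hq.2.1).1 h1
  have h3 : (p : ℝ) ≤ y := by
    refine hpy.trans ?_
    calc (y : ℝ) ^ η ≤ (y : ℝ) ^ (1 : ℝ) :=
          Real.rpow_le_rpow_of_exponent_le (by exact_mod_cast hy) hη
      _ = y := Real.rpow_one _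
  have h4 : p ≤ y := by exact_mod_cast h3
  omega

theorem NQ_card (Q : Set ℕ) (y X : ℕ) : (NQ Q y X).card ≤ Nat.primeCounting X := by
  classical
  unfold NQ
  refine card_image_le.trans ?_
  rw [Nat.primeCounting, Nat.primeCounting', Nat.count_eq_card_filter_range]
  apply card_le_card
  intro p hp
  rw [mem_filter, mem_Icc] at hp
  rw [mem_filter, mem_range]
  exact ⟨by omega, hp.2.1⟩

theorem ind_NQ_neg {Q : Set ℕ} {y X : ℕ} {z : ℤ} (hz : 0 ≤ z) : ind (NQ Q y X) z = 0 := by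
  classical
  unfold ind NQ
  rw [if_neg]
  intro h
  rw [mem_image] at h
  obtain ⟨p, h1, h2⟩ := h
  rw [mem_filter, mem_Icc] at h1
  omega

theorem ind_NQ_pos {Q : Set ℕ} {y X k : ℕ} (hk : k ≤ X) (hy : y < k) :
    ind (NQ Q y X) (-(k : ℤ)) = fQ Q k := by
  classical
  unfold ind NQ fQ
  by_cases hp : k.Prime ∧ k ∈ Q
  · rw [if_pos hp, if_pos]
    rw [mem_image]
    exact ⟨k, by rw [mem_filter, mem_Icc]; exact ⟨⟨hp.1.one_le, hk⟩, hp.1, hp.2, hy⟩, rfl⟩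
  · rw [if_neg hp, if_neg]
    intro h
    rw [mem_image] at h
    obtain ⟨p, h1, h2⟩ := h
    rw [mem_filter] at h1
    have : p = k := by omega
    rw [this] at h1
    exact hp ⟨h1.2.1, h1.2.2.1⟩

theorem ind_NQ_small {Q : Set ℕ} {y X k : ℕ} (hy : k ≤ y) :
    ind (NQ Q y X) (-(k : ℤ)) = 0 := by
  classical
  unfold ind NQ
  rw [if_neg]
  intro h
  rw [mem_image] at h
  obtain ⟨p, h1, h2⟩ := h
  rw [mem_filter] at h1
  have : p = k := by omega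
  omega

/-- the difference between the indicators -/
theorem ind_diff {Q : Set ℕ} {y X n : ℕ} (hn : n ≤ X) (t : ℕ) :
    |fQ Q (n - t) - ind (NQ Q y X) (-(n : ℤ) + t)| ≤ if n - t ∈ Icc 1 y then 1 else 0 := by
  classical
  have hf0 : fQ Q 0 = 0 := by
    unfold fQ
    rw [if_neg]
    exact fun h => Nat.not_prime_zero h.1
  rcases Nat.lt_or_ge t n with h | h
  · have e1 : -(n : ℤ) + t = -((n - t : ℕ) : ℤ) := by omega
    rw [e1]
    rcases Nat.lt_or_ge y (n - t) with h2 | h2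
    · rw [ind_NQ_pos (by omega) h2, sub_self, abs_zero]
      split_ifs <;> norm_num
    · rw [ind_NQ_small h2, sub_zero, abs_of_nonneg (fQ_nonneg _ _), if_pos]
      · exact fQ_le _ _
      · rw [mem_Icc]
        omega
  · rw [ind_NQ_neg (by omega), show n - t = 0 by omega, hf0, sub_zero, abs_zero]
    split_ifs <;> norm_num

theorem sum_near (X y t : ℕ) : ∑ n ∈ Icc 1 X, (if n - t ∈ Icc 1 y then (1 : ℝ) else 0) ≤ y := by
  classical
  rw [← sum_filter, sum_const, nsmul_eq_mul, mul_one]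
  have h1 : ((Icc 1 X).filter (fun n => n - t ∈ Icc 1 y)).card ≤ (Icc 1 y).card := by
    apply card_le_card_of_injOn (fun n => n - t)
    · intro n hn
      rw [mem_coe, mem_filter] at hn
      exact hn.2
    · intro n hn n' hn' h
      rw [mem_coe, mem_filter, mem_Icc, mem_Icc] at hn hn'
      simp only at h
      omega
  rw [Nat.card_Icc, Nat.add_sub_cancel] at h1
  exact_mod_cast h1

/-- the number of the `m ≤ y` for which `n - m²` is a prime of `Q` -/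
noncomputable def Rep (Q : Set ℕ) (n y : ℕ) : ℝ := ∑ m ∈ Icc 1 y, fQ Q (n - m ^ 2)

/-- the local averages -/
noncomputable def Loc (Q : Set ℕ) (W J n y : ℕ) : ℝ :=
  ∑ m ∈ Icc 1 y, 1 / (J : ℝ) * ∑ j ∈ Icc 1 J, fQ Q (n - (m ^ 2 + W * j))

theorem rep_loc (Q : Set ℕ) (X W J y : ℕ) (hJ : 1 ≤ J) :
    ∑ n ∈ Icc 1 X, |Rep Q n y - Loc Q W J n y| ≤
      ∑ n ∈ Icc 1 X, |∑ m ∈ Icc 1 y, dif (NQ Q y X) W J (-(n : ℤ) + gq 1 0 m)| + 2 * (y : ℝ) ^ 2 := by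
  classical
  have hJ0 : (0 : ℝ) < J := by exact_mod_cast hJ
  have key : ∀ n ∈ Icc 1 X, |Rep Q n y - Loc Q W J n y| ≤
      |∑ m ∈ Icc 1 y, dif (NQ Q y X) W J (-(n : ℤ) + gq 1 0 m)| +
      ∑ m ∈ Icc 1 y, ((if n - m ^ 2 ∈ Icc 1 y then (1 : ℝ) else 0) +
        1 / (J : ℝ) * ∑ j ∈ Icc 1 J, (if n - (m ^ 2 + W * j) ∈ Icc 1 y then (1 : ℝ) else 0)) := by
    intro n hn
    rw [mem_Icc] at hn
    have e1 : Rep Q n y - Loc Q W J n y = ∑ m ∈ Icc 1 y, dif (NQ Q y X) W J (-(n : ℤ) + gq 1 0 m) +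
        ∑ m ∈ Icc 1 y, ((fQ Q (n - m ^ 2) - ind (NQ Q y X) (-(n : ℤ) + ((m ^ 2 : ℕ) : ℤ))) -
          1 / (J : ℝ) * ∑ j ∈ Icc 1 J, (fQ Q (n - (m ^ 2 + W * j)) -
            ind (NQ Q y X) (-(n : ℤ) + ((m ^ 2 + W * j : ℕ) : ℤ)))) := by
      unfold Rep Loc
      rw [← sum_sub_distrib, ← sum_add_distrib]
      apply sum_congr rfl
      intro m _
      unfold dif
      rw [sum_sub_distrib]
      have e2 : -(n : ℤ) + gq 1 0 m = -(n : ℤ) + ((m ^ 2 : ℕ) : ℤ) := by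
        unfold gq
        push_cast
        ring
      have e3 : ∀ j : ℕ, -(n : ℤ) + gq 1 0 m + (W * j : ℕ) = -(n : ℤ) + ((m ^ 2 + W * j : ℕ) : ℤ) := by
        intro j
        unfold gq
        push_cast
        ring
      simp_rw [e3]
      rw [e2]
      ring
    rw [e1]
    refine (abs_add_le _ _).trans ?_
    gcongr
    refine (abs_sum_le_sum_abs _ _).trans ?_
    apply sum_le_sum
    intro m _
    refine (abs_sub _ _).trans ?_
    apply add_le_add (ind_diff hn.2 _)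
    rw [abs_mul, abs_of_nonneg (by positivity : (0 : ℝ) ≤ 1 / (J : ℝ))]
    apply mul_le_mul_of_nonneg_left _ (by positivity)
    refine (abs_sum_le_sum_abs _ _).trans ?_
    apply sum_le_sum
    intro j _
    exact ind_diff hn.2 _
  refine (sum_le_sum key).trans ?_
  rw [sum_add_distrib]
  gcongr
  rw [sum_comm]
  have h2 : ∀ m ∈ Icc 1 y, ∑ n ∈ Icc 1 X, ((if n - m ^ 2 ∈ Icc 1 y then (1 : ℝ) else 0) +
        1 / (J : ℝ) * ∑ j ∈ Icc 1 J, (if n - (m ^ 2 + W * j) ∈ Icc 1 y then (1 : ℝ) else 0)) ≤ 2 * y := by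
    intro m _
    rw [sum_add_distrib, ← mul_sum, sum_comm]
    have h3 := sum_near X y (m ^ 2)
    have h4 : ∑ j ∈ Icc 1 J, ∑ n ∈ Icc 1 X, (if n - (m ^ 2 + W * j) ∈ Icc 1 y then (1 : ℝ) else 0) ≤
        J * y := by
      refine (sum_le_sum fun j _ => sum_near X y (m ^ 2 + W * j)).trans ?_
      rw [sum_const, Nat.card_Icc, nsmul_eq_mul, Nat.add_sub_cancel]
    have h5 : 1 / (J : ℝ) * ∑ j ∈ Icc 1 J, ∑ n ∈ Icc 1 X,
        (if n - (m ^ 2 + W * j) ∈ Icc 1 y then (1 : ℝ) else 0) ≤ y := by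
      calc _ ≤ 1 / (J : ℝ) * (J * y) := mul_le_mul_of_nonneg_left h4 (by positivity)
        _ = y := by field_simp
    linarith
  refine (sum_le_sum h2).trans ?_
  rw [sum_const, Nat.card_Icc, nsmul_eq_mul, Nat.add_sub_cancel]
  apply le_of_eq
  ring

/-- **The transference theorem**, in the mean over `n ≤ X`. -/
theorem trans_abs (θ : ℝ) (hθ : 0 < θ) (ε : ℝ) (hε : 0 < ε) :
    ∃ R1 : ℕ, ∀ W : ℕ, 1 ≤ W → (∀ r, 1 ≤ r → r ≤ R1 → r ∣ W) → ∃ κ0 : ℝ, 0 < κ0 ∧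
      κ0 * W ≤ 1 ∧ ∀ κ : ℝ, 0 < κ → κ ≤ κ0 → ∀ᶠ X : ℕ in atTop, ∀ y : ℕ, (X : ℝ) ^ θ ≤ y → y ^ 2 ≤ X →
        1 ≤ ⌊κ * (y : ℝ) ^ 2⌋₊ ∧ ∀ Q : Set ℕ,
        ∑ n ∈ Icc 1 X, |Rep Q n y - Loc Q W ⌊κ * (y : ℝ) ^ 2⌋₊ n y| ≤ ε * (X * (y / Real.log X)) := by
  classical
  obtain ⟨R1, h0⟩ := transf 1 le_rfl 0 (1 / 16) (by norm_num) le_rfl ((ε / 2) ^ 2 * θ / 2) (by positivity)
  refine ⟨R1, fun W hW hWd => ?_⟩
  obtain ⟨κ0, hκ0, hκW, h0⟩ := h0 W hW hWd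
  refine ⟨κ0, hκ0, hκW, fun κ hκ hκκ => ?_⟩
  obtain ⟨y0, h0⟩ := h0 κ hκ hκκ
  filter_upwards [ev_rp (y0 : ℝ) hθ, eventually_ge_atTop 2, ev_rp 1 hθ, ev_pi2,
    ev_lrp 1 (by norm_num : (0 : ℝ) < 1 / 2) (by positivity : 0 < ε / 4)]
    with X hXy hX2 hX1 hpi hXl y hy1 hy2
  have hyy0 : y0 ≤ y := by exact_mod_cast hXy.trans hy1
  obtain ⟨hJ, h0⟩ := h0 y hyy0
  refine ⟨hJ, fun Q => ?_⟩
  have hX0 : (0 : ℝ) < X := by
    have : 0 < X := by omega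
    exact_mod_cast this
  have hy1R : (1 : ℝ) ≤ y := hX1.trans hy1
  have hy1n : 1 ≤ y := by exact_mod_cast hy1R
  have hlogX : 0 < Real.log X := Real.log_pos (by exact_mod_cast (by omega : 1 < X))
  set J := ⌊κ * (y : ℝ) ^ 2⌋₊ with hJd
  have h1 := h0 (NQ Q y X) (NQ_rough Q hy1n (by norm_num)) ((Icc 1 X).image (fun n : ℕ => -(n : ℤ)))
  rw [sum_image (by intro a _ b _ h; simp only at h; omega)] at h1
  have hlogy : θ * Real.log X ≤ Real.log y := by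
    have h3 := Real.log_le_log (by positivity) hy1
    rwa [Real.log_rpow hX0] at h3
  have hlogy0 : 0 < Real.log y := lt_of_lt_of_le (by positivity) hlogy
  have h2 : ((NQ Q y X).card : ℝ) ≤ 2 * X / Real.log X :=
    le_trans (by exact_mod_cast NQ_card Q y _) hpi
  have h3 : ∑ n ∈ Icc 1 X, (∑ m ∈ Icc 1 y, dif (NQ Q y X) W J (-(n : ℤ) + gq 1 0 m)) ^ 2 ≤
      (ε / 2) ^ 2 * (X * (y / Real.log X) ^ 2) := by
    refine h1.trans ?_
    calc (ε / 2) ^ 2 * θ / 2 * ((y : ℝ) ^ 2 * ((NQ Q y X).card / Real.log y)) ≤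
        (ε / 2) ^ 2 * θ / 2 * ((y : ℝ) ^ 2 * ((2 * X / Real.log X) / (θ * Real.log X))) := by
          gcongr
      _ = (ε / 2) ^ 2 * (X * (y / Real.log X) ^ 2) := by
          field_simp
  have h4 : ∑ n ∈ Icc 1 X, |∑ m ∈ Icc 1 y, dif (NQ Q y X) W J (-(n : ℤ) + gq 1 0 m)| ≤
      ε / 2 * (X * (y / Real.log X)) := by
    have h5 := sq_sum_le_card_mul_sum_sq (s := Icc 1 X)
      (f := fun n => |∑ m ∈ Icc 1 y, dif (NQ Q y X) W J (-(n : ℤ) + gq 1 0 m)|)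
    simp only [sq_abs] at h5
    rw [Nat.card_Icc, Nat.add_sub_cancel] at h5
    have h6 : (∑ n ∈ Icc 1 X, |∑ m ∈ Icc 1 y, dif (NQ Q y X) W J (-(n : ℤ) + gq 1 0 m)|) ^ 2 ≤
        (ε / 2 * (X * (y / Real.log X))) ^ 2 := by
      refine h5.trans ?_
      calc (X : ℝ) * ∑ n ∈ Icc 1 X, (∑ m ∈ Icc 1 y, dif (NQ Q y X) W J (-(n : ℤ) + gq 1 0 m)) ^ 2 ≤
          X * ((ε / 2) ^ 2 * (X * (y / Real.log X) ^ 2)) := mul_le_mul_of_nonneg_left h3 hX0.le
        _ = _ := by ring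
    exact abs_le_of_sq_le_sq' h6 (by positivity) |>.2
  have h5 : 2 * (y : ℝ) ^ 2 ≤ ε / 2 * (X * (y / Real.log X)) := by
    have hsq : (X : ℝ) ^ (1 / 2 : ℝ) * (X : ℝ) ^ (1 / 2 : ℝ) = X := by
      rw [← Real.rpow_add hX0]
      norm_num
    have hs0 : 0 < (X : ℝ) ^ (1 / 2 : ℝ) := by positivity
    have h3 : (y : ℝ) ≤ (X : ℝ) ^ (1 / 2 : ℝ) := by
      have h4 : (y : ℝ) ^ 2 ≤ X := by exact_mod_cast hy2
      nlinarith
    rw [pow_one] at hXl
    have h6 : 2 * (y : ℝ) * Real.log X ≤ ε / 2 * X := by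
      calc 2 * (y : ℝ) * Real.log X ≤ 2 * (X : ℝ) ^ (1 / 2 : ℝ) * (ε / 4 * (X : ℝ) ^ (1 / 2 : ℝ)) := by
            gcongr
        _ = ε / 2 * ((X : ℝ) ^ (1 / 2 : ℝ) * (X : ℝ) ^ (1 / 2 : ℝ)) := by ring
        _ = ε / 2 * X := by rw [hsq]
    calc 2 * (y : ℝ) ^ 2 = (2 * (y : ℝ) * Real.log X) * (y / Real.log X) := by field_simp
      _ ≤ (ε / 2 * X) * (y / Real.log X) := by gcongr
      _ = _ := by ring
  have h6 := rep_loc Q X W J y hJ
  have : ε * (X * (y / Real.log X)) = ε / 2 * (X * (y / Real.log X)) + ε / 2 * (X * (y / Real.log X)) := by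
    ring
  linarith

end Pool.Agent.V8H54.RS
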