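import Mathlib
import Pool.Agent.V8H54.RS.Tr
import Pool.Agent.V8H54.RS.SicAll
import Pool.Agent.V8H34.CR.FinA

/-!
# Sums of a prime and a small square: the local averages
-/

set_option autoImplicit false

namespace Pool.Agent.V8H54.RS

open Finset Filter Topology

/-- the expected local density -/
noncomputable def GG (W X k : ℕ) : ℝ :=
  if k.Coprime W then (W : ℝ) / (Nat.totient W * Real.log X) else 0

theorem fQ_univ (n : ℕ) : fQ Set.univ n = if n.Prime then 1 else 0 := by
  classical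
  unfold fQ
  by_cases h : n.Prime
  · rw [if_pos h, if_pos ⟨h, Set.mem_univ _⟩]
  · rw [if_neg h, if_neg (fun h' => h h'.1)]

/-- the difference for one integer -/
noncomputable def DD (W J X k : ℕ) : ℝ :=
  |1 / (J : ℝ) * ∑ j ∈ Icc 1 J, fQ Set.univ (k - W * j) - GG W X k|

theorem DD_nonneg (W J X k : ℕ) : 0 ≤ DD W J X k := abs_nonneg _

theorem loc_le (W J X y : ℕ) :
    ∑ n ∈ (Icc 1 X).filter (fun n => y ^ 2 ≤ n),
      |Loc Set.univ W J n y - ∑ m ∈ Icc 1 y, GG W X (n - m ^ 2)| ≤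
      y * ∑ k ∈ range (X + 1), DD W J X k := by
  classical
  have h1 : ∀ n ∈ (Icc 1 X).filter (fun n => y ^ 2 ≤ n),
      |Loc Set.univ W J n y - ∑ m ∈ Icc 1 y, GG W X (n - m ^ 2)| ≤
      ∑ m ∈ Icc 1 y, DD W J X (n - m ^ 2) := by
    intro n _
    unfold Loc
    rw [← sum_sub_distrib]
    refine (abs_sum_le_sum_abs _ _).trans (le_of_eq ?_)
    apply sum_congr rfl
    intro m _
    unfold DD
    simp_rw [Nat.sub_sub]
  refine (sum_le_sum h1).trans ?_
  rw [sum_comm]
  have h2 : ∀ m ∈ Icc 1 y, ∑ n ∈ (Icc 1 X).filter (fun n => y ^ 2 ≤ n), DD W J X (n - m ^ 2) ≤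
      ∑ k ∈ range (X + 1), DD W J X k := by
    intro m hm
    rw [mem_Icc] at hm
    have hmy : m ^ 2 ≤ y ^ 2 := Nat.pow_le_pow_left hm.2 2
    have hinj : Set.InjOn (fun n => n - m ^ 2) ((Icc 1 X).filter (fun n => y ^ 2 ≤ n) : Finset ℕ) := by
      intro a ha b hb h
      rw [mem_coe, mem_filter] at ha hb
      simp only at h
      omega
    rw [← sum_image (f := fun k => DD W J X k) hinj]
    apply sum_le_sum_of_subset_of_nonneg
    · intro k hk
      rw [mem_image] at hk
      obtain ⟨n, hn, rfl⟩ := hk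
      rw [mem_filter, mem_Icc] at hn
      rw [mem_range]
      omega
    · intro k _ _
      exact DD_nonneg _ _ _ _
  refine (sum_le_sum h2).trans ?_
  rw [sum_const, Nat.card_Icc, nsmul_eq_mul, Nat.add_sub_cancel]

theorem sum_shift_prime (K0 s : ℕ) : ∑ k ∈ range K0, fQ Set.univ (k - s) ≤ Nat.primeCounting K0 := by
  classical
  simp_rw [fQ_univ]
  rw [← sum_filter, sum_const, nsmul_eq_mul, mul_one]
  rw [Nat.primeCounting, Nat.primeCounting', Nat.count_eq_card_filter_range]
  have h1 : ((range K0).filter (fun k => (k - s).Prime)).card ≤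
      ((range (K0 + 1)).filter Nat.Prime).card := by
    apply card_le_card_of_injOn (fun k => k - s)
    · intro k hk
      rw [mem_coe, mem_filter, mem_range] at hk
      rw [mem_coe, mem_filter, mem_range]
      refine ⟨?_, hk.2⟩
      show k - s < K0 + 1
      omega
    · intro a ha b hb h
      rw [mem_coe, mem_filter] at ha hb
      have h2 := ha.2.two_le
      have h3 := hb.2.two_le
      simp only at h
      omega
  exact_mod_cast h1

theorem sum_GG (W X K0 : ℕ) (hW : 1 ≤ W) (hX : 2 ≤ X) :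
    ∑ k ∈ range K0, GG W X k ≤ (K0 + W) / Real.log X := by
  classical
  have hlog : 0 < Real.log X := Real.log_pos (by exact_mod_cast hX)
  have hφ : 0 < Nat.totient W := Nat.totient_pos.mpr hW
  have hφ1 : (0 : ℝ) < Nat.totient W := by exact_mod_cast hφ
  have hW0 : (0 : ℝ) < W := by exact_mod_cast hW
  unfold GG
  rw [← sum_filter, sum_const, nsmul_eq_mul]
  have h1 := Nat.Ico_filter_coprime_le (a := W) 0 K0 (by omega)
  rw [zero_add] at h1
  have h2 : ((range K0).filter (fun k => k.Coprime W)).card ≤ Nat.totient W * (K0 / W + 1) := by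
    refine le_trans (le_of_eq ?_) h1
    congr 1
    rw [range_eq_Ico]
    apply filter_congr
    intro k _
    exact Nat.coprime_comm
  have h3 : (((range K0).filter (fun k => k.Coprime W)).card : ℝ) ≤ Nat.totient W * (K0 / W + 1) := by
    have h4 : (((range K0).filter (fun k => k.Coprime W)).card : ℝ) ≤
        ((Nat.totient W * (K0 / W + 1) : ℕ) : ℝ) := by exact_mod_cast h2
    refine h4.trans ?_
    push_cast
    gcongr
    exact Nat.cast_div_le
  calc _ ≤ (Nat.totient W * (K0 / W + 1) : ℝ) * ((W : ℝ) / (Nat.totient W * Real.log X)) :=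
        mul_le_mul_of_nonneg_right h3 (by positivity)
    _ = _ := by field_simp

/-- large integers: the sum is a progression upwards -/
theorem DD_large {W J X k : ℕ} (hW : 1 ≤ W) (hk : 1 + W * (J + 1) ≤ k) :
    DD W J X k ≤ (if (k - W * (J + 1)).Coprime W then
      |(#((Icc 1 J).filter (fun j => (k - W * (J + 1) + W * j).Prime)) : ℝ) / J -
          W / (Nat.totient W * Real.log X)| else 0) := by
  classical
  set n := k - W * (J + 1) with hn
  have hkn : k = n + W * (J + 1) := by omega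
  have hcop : k.Coprime W ↔ n.Coprime W := by
    rw [hkn]
    exact Nat.coprime_add_mul_left_left n W (J + 1)
  have hsum : ∑ j ∈ Icc 1 J, fQ Set.univ (k - W * j) = (#((Icc 1 J).filter (fun j => (n + W * j).Prime)) : ℝ) := by
    have h1 : ∑ j ∈ Icc 1 J, fQ Set.univ (k - W * j) = ∑ j ∈ Icc 1 J, fQ Set.univ (n + W * j) := by
      apply sum_bij' (fun j _ => J + 1 - j) (fun j _ => J + 1 - j)
      · intro j hj
        rw [mem_Icc] at hj ⊢
        omega
      · intro j hj
        rw [mem_Icc] at hj ⊢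
        omega
      · intro j hj
        rw [mem_Icc] at hj
        omega
      · intro j hj
        rw [mem_Icc] at hj
        omega
      · intro j hj
        rw [mem_Icc] at hj
        congr 1
        have h2 : W * (J + 1) = W * j + W * (J + 1 - j) := by
          rw [← mul_add]
          congr 1
          omega
        omega
    rw [h1]
    simp_rw [fQ_univ]
    rw [← sum_filter, sum_const, nsmul_eq_mul, mul_one]
  by_cases hc : n.Coprime W
  · rw [if_pos hc]
    unfold DD GG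
    rw [if_pos (hcop.2 hc), hsum]
    apply le_of_eq
    congr 1
    ring
  · rw [if_neg hc]
    unfold DD GG
    rw [if_neg (fun h => hc (hcop.1 h)), hsum, sub_zero]
    have h0 : (Icc 1 J).filter (fun j => (n + W * j).Prime) = ∅ := by
      rw [filter_eq_empty_iff]
      intro j hj hp
      rw [mem_Icc] at hj
      have h1 : ¬ (n + W * j).Coprime W := fun h =>
        hc ((Nat.coprime_add_mul_left_left n W j).1 h)
      have h2 : (n + W * j) ∣ W := by
        by_contra h3
        exact h1 ((Nat.Prime.coprime_iff_not_dvd hp).2 h3)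
      have h5 := Nat.le_of_dvd hW h2
      have h6 : W * 1 ≤ W * j := Nat.mul_le_mul_left _ hj.1
      omega
    rw [h0]
    simp

/-- **The local averages of the primes, with the exact density, in mean.** -/
theorem DD_sum (W : ℕ) (hW : 1 ≤ W) (θ : ℝ) (hθ : 1 / 6 < θ) (η : ℝ) (hη : 0 < η) :
    ∃ κ1 : ℝ, 0 < κ1 ∧ ∀ κ : ℝ, 0 < κ → κ ≤ κ1 → ∀ᶠ X : ℕ in atTop, ∀ y : ℕ, (X : ℝ) ^ θ ≤ y →
      y ^ 2 ≤ X → 1 ≤ ⌊κ * (y : ℝ) ^ 2⌋₊ →
      ∑ k ∈ range (X + 1), DD W ⌊κ * (y : ℝ) ^ 2⌋₊ X k ≤ η * (X / Real.log X) := by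
  classical
  have hW0 : (0 : ℝ) < W := by exact_mod_cast hW
  have hW1 : (1 : ℝ) ≤ W := by exact_mod_cast hW
  set δ : ℝ := min 1 η / 40 with hδd
  have hδ : 0 < δ := by rw [hδd]; positivity
  have hδ1 : δ ≤ 1 / 40 := by
    rw [hδd]
    have := min_le_left 1 η
    linarith
  have hδη : 40 * δ ≤ η := by
    rw [hδd]
    have := min_le_right 1 η
    linarith
  refine ⟨δ / (4 * W), by positivity, fun κ hκ hκ1 => ?_⟩
  have hκ1' : κ * (4 * W) ≤ δ := by rwa [le_div_iff₀ (by positivity)] at hκ1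
  set θ' : ℝ := (1 / 3 + 2 * θ) / 2 with hθ'
  have hθ'1 : 1 / 3 < θ' := by rw [hθ']; linarith
  have hθ'2 : 0 < 2 * θ - θ' := by rw [hθ']; linarith
  have hlm := Pool.Agent.V8H34.CR.FinA.loc_mean sic_all W hW 1 le_rfl θ' hθ'1 δ (η / 2) hδ (by positivity)
  obtain ⟨N1, hN1⟩ := eventually_atTop.1 ev_pi2
  filter_upwards [hlm, ev_rp (2 / κ) hθ'2, ev_rp (4 * (W + 1) / δ) one_pos,
    ev_rp ((N1 + 2) / δ) one_pos, ev_rp (1 / δ) (by norm_num : (0 : ℝ) < 1 / 2),
    eventually_ge_atTop 2] with X hlm hXκ hXW hXN hXs hX2 y hy1 hy2 hJ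
  rw [Real.rpow_one] at hXW hXN
  have hX0 : (0 : ℝ) < X := by
    have : 0 < X := by omega
    exact_mod_cast this
  have hX1R : (1 : ℝ) ≤ X := by exact_mod_cast (by omega : 1 ≤ X)
  have hlogX : 0 < Real.log X := Real.log_pos (by exact_mod_cast (by omega : 1 < X))
  have hy0 : (0 : ℝ) < y := lt_of_lt_of_le (by positivity) hy1
  set J := ⌊κ * (y : ℝ) ^ 2⌋₊ with hJd
  have hJ1 : (J : ℝ) ≤ κ * (y : ℝ) ^ 2 := Nat.floor_le (by positivity)
  have hJ2 : κ * (y : ℝ) ^ 2 ≤ 2 * J := by
    have h1 := Nat.lt_floor_add_one (κ * (y : ℝ) ^ 2)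
    rw [← hJd] at h1
    have h2 : (1 : ℝ) ≤ J := by exact_mod_cast hJ
    linarith
  have hy2R : (y : ℝ) ^ 2 ≤ X := by exact_mod_cast hy2
  have hWJ : ((W * J : ℕ) : ℝ) ≤ δ * X / 4 := by
    push_cast
    calc (W : ℝ) * J ≤ W * (κ * (y : ℝ) ^ 2) := by gcongr
      _ = (κ * (4 * W)) * (y : ℝ) ^ 2 / 4 := by ring
      _ ≤ δ * X / 4 := by gcongr
  have hXJ : (X : ℝ) ^ θ' ≤ (W * J : ℕ) := by
    push_cast
    rw [div_le_iff₀ hκ] at hXκ
    have h1 : (X : ℝ) ^ (2 * θ) ≤ (y : ℝ) ^ 2 := by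
      rw [two_mul, Real.rpow_add hX0, sq]
      gcongr
    have h2 : (X : ℝ) ^ (2 * θ) = (X : ℝ) ^ θ' * (X : ℝ) ^ (2 * θ - θ') := by
      rw [← Real.rpow_add hX0]
      congr 1
      ring
    have h3 : 2 * (X : ℝ) ^ θ' ≤ 2 * J := by
      calc 2 * (X : ℝ) ^ θ' ≤ ((X : ℝ) ^ (2 * θ - θ') * κ) * (X : ℝ) ^ θ' := by gcongr
        _ = κ * (X : ℝ) ^ (2 * θ) := by rw [h2]; ring
        _ ≤ κ * (y : ℝ) ^ 2 := by gcongr
        _ ≤ 2 * J := hJ2
    have h4 : (X : ℝ) ^ θ' ≤ J := by linarith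
    calc (X : ℝ) ^ θ' ≤ 1 * J := by rw [one_mul]; exact h4
      _ ≤ W * J := by gcongr
  have hlm := hlm J hXJ hWJ
  rw [one_mul] at hlm
  -- the threshold
  set K0 : ℕ := ⌈δ * X⌉₊ + W * (J + 1) with hK0
  have hXW' : (W : ℝ) + 1 ≤ δ * X / 4 := by
    rw [div_le_iff₀ hδ] at hXW
    linarith
  have hceil : (⌈δ * (X : ℝ)⌉₊ : ℝ) ≤ δ * X + 1 := (Nat.ceil_lt_add_one (by positivity)).le
  have hK0u : (K0 : ℝ) ≤ 2 * (δ * X) := by
    rw [hK0]
    push_cast
    push_cast at hWJ
    have h1 : (W : ℝ) * (J + 1) = W * J + W := by ring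
    rw [h1]
    linarith
  have hK0l : δ * X ≤ K0 := by
    rw [hK0]
    push_cast
    have h1 : δ * (X : ℝ) ≤ (⌈δ * (X : ℝ)⌉₊ : ℝ) := Nat.le_ceil _
    have h2 : (0 : ℝ) ≤ (W : ℝ) * (J + 1) := by positivity
    linarith
  have hlogK : Real.log X / 2 ≤ Real.log K0 := by
    have h1 : (X : ℝ) ^ (1 / 2 : ℝ) ≤ K0 := by
      rw [div_le_iff₀ hδ] at hXs
      have hsq : (X : ℝ) ^ (1 / 2 : ℝ) * (X : ℝ) ^ (1 / 2 : ℝ) = X := by
        rw [← Real.rpow_add hX0]
        norm_num
      have hs0 : 0 < (X : ℝ) ^ (1 / 2 : ℝ) := by positivity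
      calc (X : ℝ) ^ (1 / 2 : ℝ) = 1 * (X : ℝ) ^ (1 / 2 : ℝ) := (one_mul _).symm
        _ ≤ ((X : ℝ) ^ (1 / 2 : ℝ) * δ) * (X : ℝ) ^ (1 / 2 : ℝ) := by gcongr
        _ = δ * ((X : ℝ) ^ (1 / 2 : ℝ) * (X : ℝ) ^ (1 / 2 : ℝ)) := by ring
        _ = δ * X := by rw [hsq]
        _ ≤ K0 := hK0l
    have h2 := Real.log_le_log (by positivity) h1
    rw [Real.log_rpow hX0] at h2
    linarith
  have hsmall : ∑ k ∈ range K0, DD W J X k ≤ 12 * δ * (X / Real.log X) := by
    have h1 : ∀ k ∈ range K0, DD W J X k ≤ 1 / (J : ℝ) * ∑ j ∈ Icc 1 J, fQ Set.univ (k - W * j) +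
        GG W X k := by
      intro k _
      unfold DD
      have h2 : 0 ≤ 1 / (J : ℝ) * ∑ j ∈ Icc 1 J, fQ Set.univ (k - W * j) :=
        mul_nonneg (by positivity) (sum_nonneg fun j _ => fQ_nonneg _ _)
      have h3 : 0 ≤ GG W X k := by
        unfold GG
        split_ifs <;> positivity
      rw [abs_le]
      constructor <;> linarith
    refine (sum_le_sum h1).trans ?_
    rw [sum_add_distrib, ← mul_sum, sum_comm]
    have h2 : ∑ j ∈ Icc 1 J, ∑ k ∈ range K0, fQ Set.univ (k - W * j) ≤ J * Nat.primeCounting K0 := by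
      refine (sum_le_sum fun j _ => sum_shift_prime K0 (W * j)).trans ?_
      rw [sum_const, Nat.card_Icc, nsmul_eq_mul, Nat.add_sub_cancel]
    have hJ0 : (0 : ℝ) < J := by exact_mod_cast hJ
    have h3 : 1 / (J : ℝ) * ∑ j ∈ Icc 1 J, ∑ k ∈ range K0, fQ Set.univ (k - W * j) ≤
        Nat.primeCounting K0 := by
      calc _ ≤ 1 / (J : ℝ) * (J * Nat.primeCounting K0) := mul_le_mul_of_nonneg_left h2 (by positivity)
        _ = _ := by field_simp
    have h4 := hN1 K0 (by
      have h5 : (N1 : ℝ) ≤ K0 := by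
        rw [div_le_iff₀ hδ] at hXN
        linarith
      exact_mod_cast h5)
    have h5 : (Nat.primeCounting K0 : ℝ) ≤ 8 * δ * (X / Real.log X) := by
      refine h4.trans ?_
      calc 2 * (K0 : ℝ) / Real.log K0 ≤ 2 * (2 * (δ * X)) / (Real.log X / 2) := by gcongr
        _ = 8 * δ * (X / Real.log X) := by field_simp; ring
    have h6 := sum_GG W X K0 hW hX2
    have h7 : ((K0 : ℝ) + W) / Real.log X ≤ 4 * δ * (X / Real.log X) := by
      calc ((K0 : ℝ) + W) / Real.log X ≤ (2 * (δ * X) + δ * X / 4) / Real.log X := by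
            gcongr
            linarith
        _ ≤ (4 * (δ * X)) / Real.log X := by
            gcongr
            have : 0 < δ * X := by positivity
            linarith
        _ = _ := by ring
    linarith
  have hlarge : ∑ k ∈ Icc K0 X, DD W J X k ≤ η / 2 * (X / Real.log X) := by
    refine le_trans ?_ hlm
    have h1 : ∀ k ∈ Icc K0 X, DD W J X k ≤
        (fun n : ℕ => if n.Coprime W then
        |(#((Icc 1 J).filter (fun j => (n + W * j).Prime)) : ℝ) / J -
          W / (Nat.totient W * Real.log X)| else 0) (k - W * (J + 1)) := by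
      intro k hk
      rw [mem_Icc] at hk
      apply DD_large hW
      have h2 : 1 ≤ ⌈δ * (X : ℝ)⌉₊ := Nat.one_le_ceil_iff.2 (by positivity)
      omega
    refine (sum_le_sum h1).trans ?_
    have hinj : Set.InjOn (fun k => k - W * (J + 1)) (Icc K0 X : Finset ℕ) := by
      intro a ha b hb h
      rw [mem_coe, mem_Icc] at ha hb
      simp only at h
      omega
    rw [← sum_image (f := (fun n : ℕ => if n.Coprime W then
        |(#((Icc 1 J).filter (fun j => (n + W * j).Prime)) : ℝ) / J -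
          W / (Nat.totient W * Real.log X)| else 0)) hinj]
    apply sum_le_sum_of_subset_of_nonneg
    · intro k hk
      rw [mem_image] at hk
      obtain ⟨n, hn, rfl⟩ := hk
      rw [mem_Icc] at hn
      rw [mem_Icc]
      omega
    · intro k _ _
      split_ifs <;> positivity
  have hall : ∑ k ∈ range (X + 1), DD W J X k ≤ ∑ k ∈ range K0, DD W J X k + ∑ k ∈ Icc K0 X, DD W J X k := by
    rw [← sum_union]
    · apply sum_le_sum_of_subset_of_nonneg
      · intro k hk
        rw [mem_range] at hk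
        rw [mem_union, mem_range, mem_Icc]
        omega
      · intro k _ _
        exact DD_nonneg _ _ _ _
    · rw [disjoint_left]
      intro k hk hk'
      rw [mem_range] at hk
      rw [mem_Icc] at hk'
      omega
  have h1 : 12 * δ * (X / Real.log X) ≤ η / 2 * (X / Real.log X) := by
    apply mul_le_mul_of_nonneg_right _ (by positivity)
    linarith
  have h2 : η * (X / Real.log X) = η / 2 * (X / Real.log X) + η / 2 * (X / Real.log X) := by ring
  linarith

end Pool.Agent.V8H54.RS
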