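import Mathlib
import Pool.Agent.V8H54.RS.Lc
import Pool.Agent.H373R2.T7.SysCount

/-!
# Sums of a prime and a small square: the main term
-/

set_option autoImplicit false

namespace Pool.Agent.V8H54.RS

open Finset Filter Topology
open Pool.Agent.H373R2.T7 (pz mem_pz nuB nuB_le PerB sys_count)

/-- `p` divides `n - m²` -/
def QN (n p m : ℕ) : Prop := (p : ℤ) ∣ (n : ℤ) - (m : ℤ) ^ 2

theorem nu_zmod (n : ℕ) {p : ℕ} [Fact p.Prime] : nuB (QN n) p =
    (univ.filter (fun x : ZMod p => x ^ 2 = (n : ZMod p))).card := by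
  classical
  have hp : p.Prime := Fact.out
  unfold nuB
  have h : ((range p).filter (fun r => QN n p r)).card =
      (univ.filter (fun x : ZMod p => x ^ 2 = (n : ZMod p))).card := by
    refine card_nbij' (fun r : ℕ => (r : ZMod p)) (fun x => x.val) ?_ ?_ ?_ ?_
    · intro r hr
      rw [mem_coe, mem_filter] at hr ⊢
      refine ⟨mem_univ _, ?_⟩
      have h1 := hr.2
      unfold QN at h1
      rw [← ZMod.intCast_zmod_eq_zero_iff_dvd] at h1
      push_cast at h1
      exact (sub_eq_zero.1 h1).symm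
    · intro x hx
      rw [mem_coe, mem_filter] at hx ⊢
      refine ⟨mem_range.2 (ZMod.val_lt x), ?_⟩
      unfold QN
      rw [← ZMod.intCast_zmod_eq_zero_iff_dvd]
      push_cast
      rw [ZMod.natCast_zmod_val]
      exact sub_eq_zero.2 hx.2.symm
    · intro r hr
      rw [mem_coe, mem_filter, mem_range] at hr
      simp only
      rw [ZMod.val_natCast, Nat.mod_eq_of_lt hr.1]
    · intro x _
      simp only
      exact ZMod.natCast_zmod_val x
  convert h using 1

/-- the number of the roots modulo an odd prime -/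
theorem nu_leg (n : ℕ) {p : ℕ} (hp : p.Prime) (h2 : p ≠ 2) :
    (nuB (QN n) p : ℤ) = 1 + jacobiSym (n : ℤ) p := by
  have : Fact p.Prime := ⟨hp⟩
  rw [← jacobiSym.legendreSym.to_jacobiSym, add_comm, ← legendreSym.card_sqrts p h2, nu_zmod]
  congr 1
  apply congrArg
  ext x
  simp

theorem sq_two : ∀ x : ZMod 2, x ^ 2 = x := by decide

theorem nu_two (n : ℕ) : nuB (QN n) 2 = 1 := by
  have : Fact (Nat.Prime 2) := ⟨Nat.prime_two⟩
  rw [nu_zmod, card_eq_one]
  refine ⟨(n : ZMod 2), ?_⟩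
  ext x
  rw [mem_filter, mem_singleton]
  rw [sq_two x]
  simp

theorem QN_per (n : ℕ) : PerB (QN n) 2 := by
  refine ⟨fun p m => ?_, fun p hp => ?_⟩
  · unfold QN
    have h1 : (p : ℤ) ∣ (m : ℤ) ^ 2 - ((m % p : ℕ) : ℤ) ^ 2 := by
      have h2 : (p : ℤ) ∣ (m : ℤ) - ((m % p : ℕ) : ℤ) := by
        push_cast
        exact Int.dvd_self_sub_emod
      exact h2.trans (sub_dvd_pow_sub_pow _ _ 2)
    constructor
    · intro h
      have h3 := dvd_add h h1
      have h4 : (n : ℤ) - (m : ℤ) ^ 2 + ((m : ℤ) ^ 2 - ((m % p : ℕ) : ℤ) ^ 2) =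
          (n : ℤ) - ((m % p : ℕ) : ℤ) ^ 2 := by ring
      rwa [h4] at h3
    · intro h
      have h3 := dvd_sub h h1
      have h4 : (n : ℤ) - ((m % p : ℕ) : ℤ) ^ 2 - ((m : ℤ) ^ 2 - ((m % p : ℕ) : ℤ) ^ 2) =
          (n : ℤ) - (m : ℤ) ^ 2 := by ring
      rwa [h4] at h3
  · rcases eq_or_ne p 2 with rfl | h2
    · rw [nu_two]
      norm_num
    · have h1 := nu_leg n hp h2
      have h3 : jacobiSym (n : ℤ) p ≤ 1 := by
        rcases jacobiSym.trichotomy (n : ℤ) p with h | h | h <;> rw [h] <;> norm_num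
      omega

/-- the partial products of the singular series -/
noncomputable def pS (n z : ℕ) : ℝ :=
  ∏ p ∈ (Icc 3 z).filter Nat.Prime, (1 - (jacobiSym (n : ℤ) p : ℝ) / (p - 1))

theorem pz_insert {z : ℕ} (hz : 2 ≤ z) : pz z = insert 2 ((Icc 3 z).filter Nat.Prime) := by
  ext p
  rw [mem_insert, mem_pz, mem_filter, mem_Icc]
  constructor
  · rintro ⟨h2, h3⟩
    have := h3.two_le
    by_cases h4 : p = 2
    · exact Or.inl h4
    · exact Or.inr ⟨⟨by omega, h2⟩, h3⟩
  · rintro (rfl | ⟨⟨h1, h2⟩, h3⟩)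
    · exact ⟨hz, Nat.prime_two⟩
    · exact ⟨h2, h3⟩

theorem pS_eq (n : ℕ) {z : ℕ} (hz : 2 ≤ z) :
    pS n z = ∏ p ∈ pz z, (1 - (nuB (QN n) p : ℝ) / p) / (1 - 1 / (p : ℝ)) := by
  have hnot : 2 ∉ (Icc 3 z).filter Nat.Prime := by
    rw [mem_filter, mem_Icc]
    omega
  rw [pz_insert hz, prod_insert hnot, nu_two]
  have e1 : (1 - ((1 : ℕ) : ℝ) / ((2 : ℕ) : ℝ)) / (1 - 1 / ((2 : ℕ) : ℝ)) = 1 := by norm_num
  rw [e1, one_mul]
  unfold pS
  apply prod_congr rfl
  intro p hp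
  rw [mem_filter, mem_Icc] at hp
  have h1 := nu_leg n hp.2 (by omega)
  have h2 : (nuB (QN n) p : ℝ) = 1 + (jacobiSym (n : ℤ) p : ℝ) := by exact_mod_cast h1
  rw [h2]
  have hp3 : (3 : ℝ) ≤ p := by exact_mod_cast (by omega : 3 ≤ p)
  have h4 : (p : ℝ) - 1 ≠ 0 := by
    have : (0 : ℝ) < p - 1 := by linarith
    exact this.ne'
  have h5 : (p : ℝ) ≠ 0 := by linarith
  field_simp
  ring

theorem factor_pos (n p : ℕ) (hp : 3 ≤ p) : 0 < 1 - (jacobiSym (n : ℤ) p : ℝ) / (p - 1) := by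
  have hp3 : (3 : ℝ) ≤ p := by exact_mod_cast hp
  have h1 : (jacobiSym (n : ℤ) p : ℝ) ≤ 1 := by
    rcases jacobiSym.trichotomy (n : ℤ) p with h | h | h <;> rw [h] <;> norm_num
  have h2 : (jacobiSym (n : ℤ) p : ℝ) / (p - 1) ≤ 1 / 2 := by
    rw [div_le_div_iff₀ (by linarith) (by norm_num)]
    linarith
  linarith

theorem pS_pos (n z : ℕ) : 0 < pS n z := by
  unfold pS
  apply prod_pos
  intro p hp
  rw [mem_filter, mem_Icc] at hp
  exact factor_pos n p (by omega)

theorem primeFactors_fact (K : ℕ) : K.factorial.primeFactors = pz K := by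
  ext p
  rw [Nat.mem_primeFactors, mem_pz]
  constructor
  · rintro ⟨h1, h2, -⟩
    exact ⟨(h1.dvd_factorial).1 h2, h1⟩
  · rintro ⟨h1, h2⟩
    exact ⟨h2, (h2.dvd_factorial).2 h1, K.factorial_ne_zero⟩

theorem totient_fact (K : ℕ) :
    (Nat.totient K.factorial : ℝ) = K.factorial * ∏ p ∈ pz K, (1 - 1 / (p : ℝ)) := by
  have h1 := Nat.totient_eq_mul_prod_factors K.factorial
  have h2 : ((Nat.totient K.factorial : ℚ) : ℝ) = ((K.factorial * ∏ p ∈ K.factorial.primeFactors, (1 - (p : ℚ)⁻¹) : ℚ) : ℝ) := by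
    rw [h1]
  push_cast at h2
  rw [h2, primeFactors_fact]
  congr 1
  apply prod_congr rfl
  intro p _
  rw [one_div]

theorem prod_pos' (K : ℕ) : 0 < ∏ p ∈ pz K, (1 - 1 / (p : ℝ)) := by
  apply prod_pos
  intro p hp
  rw [mem_pz] at hp
  have h2 : (2 : ℝ) ≤ p := by exact_mod_cast hp.2.two_le
  have : 1 / (p : ℝ) ≤ 1 / 2 := by
    apply one_div_le_one_div_of_le <;> linarith
  linarith

theorem coprime_fact (K k : ℕ) : k.Coprime K.factorial ↔ ∀ p ∈ pz K, ¬ p ∣ k := by
  constructor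
  · intro h p hp hd
    rw [mem_pz] at hp
    have h2 := Nat.dvd_gcd hd ((hp.2.dvd_factorial).2 hp.1)
    rw [h] at h2
    exact hp.2.one_lt.ne' (Nat.dvd_one.1 h2)
  · intro h
    rw [Nat.coprime_iff_gcd_eq_one]
    by_contra h1
    obtain ⟨p, hp, hpd⟩ := Nat.exists_prime_and_dvd h1
    have h2 : p ∣ K.factorial := hpd.trans (Nat.gcd_dvd_right _ _)
    have h3 : p ∣ k := hpd.trans (Nat.gcd_dvd_left _ _)
    exact h p (by rw [mem_pz]; exact ⟨(hp.dvd_factorial).1 h2, hp⟩) h3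

/-- **The main term.** -/
theorem main_sum (θ : ℝ) (hθ : 0 < θ) (K : ℕ) (hK : 2 ≤ K) (η : ℝ) (hη : 0 < η) :
    ∀ᶠ X : ℕ in atTop, ∀ y : ℕ, (X : ℝ) ^ θ ≤ y → ∀ n : ℕ, y ^ 2 ≤ n →
      |∑ m ∈ Icc 1 y, GG K.factorial X (n - m ^ 2) - pS n K * (y / Real.log X)| ≤
        η * (y / Real.log X) := by
  classical
  obtain ⟨N0, h0⟩ := sys_count 2 1 1 (by norm_num)
  set V := ∏ p ∈ pz K, (1 - 1 / (p : ℝ)) with hV
  have hV0 : 0 < V := prod_pos' K
  have hφ := totient_fact K
  rw [← hV] at hφ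
  have hf0 : (0 : ℝ) < K.factorial := by exact_mod_cast K.factorial_pos
  have hlt : Tendsto (fun N : ℕ => Real.log (N : ℝ)) atTop atTop :=
    Real.tendsto_log_atTop.comp (tendsto_natCast_atTop_atTop (R := ℝ))
  filter_upwards [ev_rp (N0 : ℝ) hθ, ev_rp 1 hθ, eventually_ge_atTop 2,
    hlt.eventually_ge_atTop ((K + 1 / (V * η)) / θ)] with X hXN hX1 hX2 hXl y hy1 n hn
  have hX0 : (0 : ℝ) < X := by
    have : 0 < X := by omega
    exact_mod_cast this
  have hlogX : 0 < Real.log X := Real.log_pos (by exact_mod_cast (by omega : 1 < X))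
  have hyN : N0 ≤ y := by exact_mod_cast hXN.trans hy1
  have hy0 : (0 : ℝ) < y := lt_of_lt_of_le (by positivity) hy1
  have hlogy : θ * Real.log X ≤ Real.log y := by
    have h3 := Real.log_le_log (by positivity) hy1
    rwa [Real.log_rpow hX0] at h3
  rw [div_le_iff₀ hθ] at hXl
  have hK0 : (0 : ℝ) ≤ K := by positivity
  have hVη : 0 < 1 / (V * η) := by positivity
  have hlogy1 : K + 1 / (V * η) ≤ Real.log y := by linarith
  have hlogy0 : 0 < Real.log y := by linarith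
  have h1 := h0 y hyN K (by omega) (by rw [pow_one]; linarith) (QN n) (QN_per n)
  rw [pow_one] at h1
  set c := ((Icc 1 y).filter (fun m : ℕ => ∀ p ∈ pz K, ¬ QN n p m)).card with hc
  have h2 : ∑ m ∈ Icc 1 y, GG K.factorial X (n - m ^ 2) = c * (1 / (V * Real.log X)) := by
    unfold GG
    rw [← sum_filter, sum_const, nsmul_eq_mul, hφ]
    congr 1
    · rw [hc]
      congr 2
      apply filter_congr
      intro m hm
      rw [mem_Icc] at hm
      rw [coprime_fact]
      have hmn : m ^ 2 ≤ n := (Nat.pow_le_pow_left hm.2 2).trans hn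
      apply forall_congr'
      intro p
      apply imp_congr_right
      intro _
      unfold QN
      have e : (n : ℤ) - (m : ℤ) ^ 2 = ((n - m ^ 2 : ℕ) : ℤ) := by
        push_cast [Nat.cast_sub hmn]
        ring
      rw [e, Int.natCast_dvd_natCast]
    · field_simp
  have h3 : pS n K * V = ∏ p ∈ pz K, (1 - (nuB (QN n) p : ℝ) / p) := by
    rw [pS_eq n hK, hV, ← prod_mul_distrib]
    apply prod_congr rfl
    intro p hp
    rw [mem_pz] at hp
    have h2 : (2 : ℝ) ≤ p := by exact_mod_cast hp.2.two_le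
    have h4 : 1 / (p : ℝ) ≤ 1 / 2 := by
      apply one_div_le_one_div_of_le <;> linarith
    have h5 : 1 - 1 / (p : ℝ) ≠ 0 := by
      have : 0 < 1 - 1 / (p : ℝ) := by linarith
      exact this.ne'
    rw [div_mul_cancel₀ _ h5]
  rw [← h3] at h1
  have h4 : ∑ m ∈ Icc 1 y, GG K.factorial X (n - m ^ 2) - pS n K * (y / Real.log X) =
      (c - y * (pS n K * V)) * (1 / (V * Real.log X)) := by
    rw [h2]
    field_simp
  rw [h4, abs_mul, abs_of_nonneg (by positivity : 0 ≤ 1 / (V * Real.log X))]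
  calc |(c : ℝ) - y * (pS n K * V)| * (1 / (V * Real.log X)) ≤
      (y / Real.log y) * (1 / (V * Real.log X)) := mul_le_mul_of_nonneg_right h1 (by positivity)
    _ = (1 / (V * Real.log y)) * (y / Real.log X) := by field_simp
    _ ≤ η * (y / Real.log X) := by
        apply mul_le_mul_of_nonneg_right _ (by positivity)
        rw [div_le_iff₀ (by positivity)]
        have h5 : 1 / (V * η) ≤ Real.log y := by linarith
        rw [div_le_iff₀ (by positivity)] at h5
        linarith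

end Pool.Agent.V8H54.RS
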