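import Mathlib
import Pool.Agent.V8H54.RS.Mn
import Pool.Agent.R460.SC.Cm

/-!
# Sums of a prime and a small square: the singular series
-/

set_option autoImplicit false

namespace Pool.Agent.V8H54.RS

open Finset Filter Topology
open Pool.Agent.W468.ConjF (SJ PJ PJ_le PJ_tendsto)
open Pool.Agent.R460.SC (tail_abs PJ_ge)
open Pool.Agent.Y868.TB (low_count_lin)

theorem ev_ln (C : ℝ) : ∀ᶠ X : ℕ in atTop, C ≤ Real.log X :=
  (Real.tendsto_log_atTop.comp tendsto_natCast_atTop_atTop).eventually (eventually_ge_atTop C)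

theorem ev_pl (k : ℕ) (c : ℝ) (hc : 0 < c) : ∀ᶠ X : ℕ in atTop, Real.log X ^ k ≤ c * X := by
  have h := (Real.isLittleO_pow_log_id_atTop (n := k)).def hc
  have h2 := tendsto_natCast_atTop_atTop.eventually h
  filter_upwards [h2, eventually_ge_atTop 1] with X hX hX1
  have hX1' : (1 : ℝ) ≤ X := by exact_mod_cast hX1
  simp only [id] at hX
  rw [Real.norm_of_nonneg (pow_nonneg (Real.log_nonneg hX1') k), Real.norm_of_nonneg (by linarith)] at hX
  exact hX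

theorem jac4 (c : ℤ) {p : ℕ} (hp : p.Prime) (h2 : p ≠ 2) :
    jacobiSym (0 ^ 2 - 4 * (-1) * c) p = jacobiSym c p := by
  have e : (0 ^ 2 - 4 * (-1) * c : ℤ) = 2 ^ 2 * c := by ring
  rw [e, jacobiSym.mul_left, jacobiSym.pow_left]
  have h4 : jacobiSym 2 p ^ 2 = 1 := by
    apply jacobiSym.sq_one
    have := (Nat.coprime_primes Nat.prime_two hp).2 (Ne.symm h2)
    exact_mod_cast this
  rw [h4, one_mul]

theorem SJ4 (c : ℤ) {z : ℕ} (hz : 2 ≤ z) (N : ℕ) : SJ (0 ^ 2 - 4 * (-1) * c) z N = SJ c z N := by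
  unfold SJ
  apply sum_congr rfl
  intro p hp
  rw [mem_filter, mem_Ioc] at hp
  rw [jac4 c hp.2 (by omega)]

/-- the tail of the product beyond a fixed number, for almost all `n` -/
theorem sing_tail (δ : ℝ) (hδ : 0 < δ) :
    ∃ K0 : ℕ, 2 ≤ K0 ∧ ∀ K : ℕ, K0 ≤ K → ∃ X0 : ℕ, ∀ X : ℕ, X0 ≤ X → ∃ Ex : Finset ℕ, (#Ex : ℝ) ≤ δ * X ∧
      ∀ n : ℕ, 1 ≤ n → n ≤ X → n ∉ Ex → ¬ IsSquare (n : ℤ) ∧
        ∀ᶠ N in atTop, |SJ (n : ℤ) K N| ≤ δ := by
  classical
  refine ⟨max 2 ⌈64 / δ ^ 3⌉₊, le_max_left _ _, fun K hK => ?_⟩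
  have hK2 : 2 ≤ K := (le_max_left _ _).trans hK
  have hKδ : 64 / δ ^ 3 ≤ K := (Nat.le_ceil _).trans (by exact_mod_cast (le_max_right _ _).trans hK)
  have hK0 : (0 : ℝ) < K := by
    have : 0 < K := by omega
    exact_mod_cast this
  obtain ⟨X1, h1⟩ := tail_abs (-1) (by norm_num) 0 (1 / 4) (by norm_num) 1 11
  have hδ3 : 0 < δ ^ 3 := by positivity
  obtain ⟨X2, h2⟩ := eventually_atTop.1 ((ev_ln (4 / δ + K + 2)).and
    (ev_pl 22 (δ ^ 3 / 16) (by positivity)))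
  refine ⟨max (max X1 X2) 2, fun X hX => ?_⟩
  have hX1 : X1 ≤ X := (le_max_left _ _).trans ((le_max_left _ _).trans hX)
  have hX2 : X2 ≤ X := (le_max_right _ _).trans ((le_max_left _ _).trans hX)
  have hX3 : 2 ≤ X := (le_max_right _ _).trans hX
  obtain ⟨hL, hL22⟩ := h2 X hX2
  have hX0 : (0 : ℝ) < X := by
    have : 0 < X := by omega
    exact_mod_cast this
  have hX2r : (2 : ℝ) ≤ X := by exact_mod_cast hX3
  set L := Real.log (X : ℝ) with hLd
  have h4δ : 0 < 4 / δ := by positivity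
  have hL2 : 2 ≤ L := by linarith
  have hL0 : 0 < L := by linarith
  set z := ⌈L ^ 10⌉₊ with hz
  have hz1 : L ^ 10 ≤ z := Nat.le_ceil _
  have hL10 : 1 ≤ L ^ 10 := one_le_pow₀ (by linarith)
  have hz2 : (z : ℝ) ≤ L ^ 11 := by
    have h3 := (Nat.ceil_lt_add_one (by positivity : 0 ≤ L ^ 10)).le
    calc (z : ℝ) ≤ L ^ 10 + 1 := h3
      _ ≤ L ^ 10 * 2 := by linarith
      _ ≤ L ^ 10 * L := by gcongr
      _ = L ^ 11 := by ring
  have hKz : K ≤ z := by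
    have h3 : (K : ℝ) ≤ z := by
      calc (K : ℝ) ≤ L := by linarith
        _ = L ^ 1 := (pow_one L).symm
        _ ≤ L ^ 10 := pow_le_pow_right₀ (by linarith) (by norm_num)
        _ ≤ z := hz1
    exact_mod_cast h3
  have hzz2 : 2 ≤ z := hK2.trans hKz
  obtain ⟨Ex1, hEx1, hg1⟩ := h1 X hX1 z (by simpa using hz1) (by simpa using hz2) 1 le_rfl (by
    rw [Nat.cast_one]
    exact Real.one_le_rpow (by linarith) (by norm_num)) 0
  have hP : ∀ p ∈ (Ioc K z).filter Nat.Prime, p.Prime ∧ p ≠ 2 ∧ K < p ∧ p ≤ z ∧ ¬ (p : ℤ) ∣ 1 := by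
    intro p hp
    rw [mem_filter, mem_Ioc] at hp
    refine ⟨hp.2, by omega, hp.1.1, hp.1.2, fun h => ?_⟩
    have h3 := Int.le_of_dvd (by omega) h
    omega
  have hcount := low_count_lin 0 1 ((Ioc K z).filter Nat.Prime) K z (X + 1) (by omega)
    hP (δ / 2) (by positivity)
  set Bd := (range (X + 1)).filter (fun c : ℕ => δ / 2 < |∑ p ∈ (Ioc K z).filter Nat.Prime,
    (jacobiSym (0 + 1 * (c : ℤ)) p : ℝ) / p|) with hBd
  refine ⟨Ex1.image Int.toNat ∪ Bd, ?_, ?_⟩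
  · have h3 : (#(Ex1.image Int.toNat ∪ Bd) : ℝ) ≤ (#Ex1 : ℝ) + #Bd := by
      have h4 := card_union_le (Ex1.image Int.toNat) Bd
      have h5 : #(Ex1.image Int.toNat) ≤ #Ex1 := card_image_le
      exact_mod_cast h4.trans (Nat.add_le_add_right h5 _)
    have h4 : (#Ex1 : ℝ) ≤ δ / 4 * X := by
      refine hEx1.trans ?_
      rw [Nat.cast_one, one_mul, pow_one, div_le_iff₀ hL0]
      have h5 : 4 / δ ≤ L := by linarith
      rw [div_le_iff₀ hδ] at h5
      nlinarith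
    have h5 : (#Bd : ℝ) ≤ 3 * δ / 4 * X := by
      refine hcount.trans ?_
      rw [div_le_iff₀ (by positivity)]
      have h6 : (z : ℝ) ^ 2 ≤ δ ^ 3 / 16 * X := by
        calc (z : ℝ) ^ 2 ≤ (L ^ 11) ^ 2 := by gcongr
          _ = L ^ 22 := by ring
          _ ≤ δ ^ 3 / 16 * X := hL22
      have h7 : 2 * (((X + 1 : ℕ) : ℝ) / K) ≤ δ ^ 3 / 16 * X := by
        push_cast
        have h8 : ((X : ℝ) + 1) / K ≤ 2 * X / K := by
          apply div_le_div_of_nonneg_right _ hK0.le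
          linarith
        have h9 : 2 * (X : ℝ) / K ≤ δ ^ 3 / 32 * X := by
          rw [div_le_iff₀ hK0]
          rw [div_le_iff₀ hδ3] at hKδ
          nlinarith
        linarith
      have h10 : 3 * δ / 4 * (X : ℝ) * (δ / 2) ^ 2 = 3 * δ ^ 3 / 16 * X := by ring
      rw [h10]
      have h11 : 0 ≤ δ ^ 3 / 16 * (X : ℝ) := by positivity
      have h12 : 3 * δ ^ 3 / 16 * (X : ℝ) = 3 * (δ ^ 3 / 16 * X) := by ring
      rw [h12]
      linarith
    linarith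
  · intro c hc1 hcX hcE
    rw [mem_union, not_or] at hcE
    obtain ⟨hcE1, hcE2⟩ := hcE
    have hcE1' : (c : ℤ) ∉ Ex1 := by
      intro h
      apply hcE1
      rw [mem_image]
      exact ⟨(c : ℤ), h, Int.toNat_natCast c⟩
    obtain ⟨hsq, hev⟩ := hg1 (c : ℤ) (by exact_mod_cast hc1) (by exact_mod_cast hcX) (Int.modEq_one) hcE1'
    refine ⟨fun h => hsq ?_, ?_⟩
    · obtain ⟨r, hr⟩ := h
      refine ⟨2 * r, ?_⟩
      rw [hr]
      ring
    filter_upwards [hev, eventually_ge_atTop z] with N hN hzN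
    rw [SJ4 _ hzz2] at hN
    have h3 : SJ (c : ℤ) K N = SJ (c : ℤ) K z + SJ (c : ℤ) z N := by
      unfold SJ
      rw [← sum_union]
      · congr 1
        ext p
        rw [mem_union, mem_filter, mem_filter, mem_filter, mem_Ioc, mem_Ioc, mem_Ioc]
        constructor
        · rintro ⟨⟨h4, h5⟩, h6⟩
          rcases le_or_gt p z with h7 | h7
          · exact Or.inl ⟨⟨h4, h7⟩, h6⟩
          · exact Or.inr ⟨⟨h7, h5⟩, h6⟩
        · rintro (⟨⟨h4, h5⟩, h6⟩ | ⟨⟨h4, h5⟩, h6⟩)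
          · exact ⟨⟨h4, h5.trans hzN⟩, h6⟩
          · exact ⟨⟨by omega, h5⟩, h6⟩
      · rw [disjoint_left]
        intro p hp hp'
        rw [mem_filter, mem_Ioc] at hp hp'
        omega
    have h4 : |SJ (c : ℤ) K z| ≤ δ / 2 := by
      by_contra h5
      apply hcE2
      rw [hBd, mem_filter, mem_range]
      refine ⟨by omega, ?_⟩
      push Not at h5
      unfold SJ at h5
      have h6 : (0 + 1 * (c : ℤ)) = (c : ℤ) := by ring
      rw [h6]
      exact h5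
    have h5 : |SJ (c : ℤ) z N| ≤ δ / 2 := by
      refine hN.trans ?_
      rw [pow_one, div_le_iff₀ hL0]
      have h6 : 4 / δ ≤ L := by linarith
      rw [div_le_iff₀ hδ] at h6
      nlinarith
    rw [h3]
    refine (abs_add_le _ _).trans ?_
    linarith

/-- the limit of the product beyond `z` is close to one -/
theorem PJ_lim {D : ℤ} (hD : ¬ IsSquare D) {z : ℕ} (hz : 2 ≤ z) {δ : ℝ} (hδ0 : 0 ≤ δ) (hδ1 : δ + 5 / z ≤ 1 / 2)
    (h : ∀ᶠ N in atTop, |SJ D z N| ≤ δ) :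
    ∃ L : ℝ, 0 < L ∧ Tendsto (fun N => PJ D z N) atTop (𝓝 L) ∧ |L - 1| ≤ 2 * (δ + 5 / z) := by
  obtain ⟨L, hL0, hL⟩ := PJ_tendsto D hD z hz
  have hz0 : (0 : ℝ) < z := by exact_mod_cast (by omega : 0 < z)
  have h5 : 0 ≤ 5 / (z : ℝ) := by positivity
  have h1z : 1 / (z : ℝ) ≤ 5 / z := div_le_div_of_nonneg_right (by norm_num) hz0.le
  refine ⟨L, hL0, hL, ?_⟩
  have hup : L ≤ 1 + 2 * (δ + 5 / z) := by
    apply le_of_tendsto hL
    filter_upwards [h, eventually_ge_atTop z] with N h1 hN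
    refine (PJ_le D z N hz hN).trans ?_
    have h6 : |SJ D z N| + 1 / z ≤ δ + 5 / z := add_le_add h1 h1z
    have h7 : 0 ≤ |SJ D z N| + 1 / (z : ℝ) := by positivity
    have h8 := Real.exp_bound_div_one_sub_of_interval h7 (by linarith)
    have h9 : Real.exp (|SJ D z N| + 1 / z) ≤ Real.exp (δ + 5 / z) := Real.exp_le_exp.2 h6
    have h10 : Real.exp (δ + 5 / z) ≤ 1 / (1 - (δ + 5 / z)) :=
      Real.exp_bound_div_one_sub_of_interval (by linarith) (by linarith)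
    refine h9.trans (h10.trans ?_)
    rw [div_le_iff₀ (by linarith)]
    have h11 : 0 ≤ δ + 5 / (z : ℝ) := by linarith
    nlinarith
  have hlo : 1 - 2 * (δ + 5 / z) ≤ L := by
    apply ge_of_tendsto hL
    filter_upwards [h, eventually_ge_atTop z] with N h1 hN
    refine le_trans ?_ (PJ_ge D z N hz hN)
    have h6 := Real.add_one_le_exp (-(|SJ D z N| + 5 / z))
    linarith
  rw [abs_le]
  constructor <;> linarith

theorem pS_split (n : ℕ) {z N : ℕ} (hz : 2 ≤ z) (hN : z ≤ N) : pS n N = pS n z * PJ (n : ℤ) z N := by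
  unfold pS PJ
  have e1 : (Icc 3 N).filter Nat.Prime = (Icc 3 z).filter Nat.Prime ∪ (Ioc z N).filter Nat.Prime := by
    ext p
    rw [mem_union, mem_filter, mem_filter, mem_filter, mem_Ioc, mem_Icc, mem_Icc]
    constructor
    · rintro ⟨⟨h1, h2⟩, h3⟩
      by_cases h4 : p ≤ z
      · exact Or.inl ⟨⟨h1, h4⟩, h3⟩
      · exact Or.inr ⟨⟨by omega, h2⟩, h3⟩
    · rintro (⟨⟨h1, h2⟩, h3⟩ | ⟨⟨h1, h2⟩, h3⟩)
      · exact ⟨⟨h1, by omega⟩, h3⟩
      · exact ⟨⟨by omega, h2⟩, h3⟩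
  rw [e1, prod_union]
  rw [disjoint_left]
  intro p hp hp'
  rw [mem_filter, mem_Icc] at hp
  rw [mem_filter, mem_Ioc] at hp'
  omega

/-- **The singular series is close to its partial products, for almost all `n`.** -/
theorem series (δ : ℝ) (hδ : 0 < δ) (hδ1 : δ ≤ 1) :
    ∃ K0 : ℕ, 2 ≤ K0 ∧ ∀ K : ℕ, K0 ≤ K → ∃ X0 : ℕ, ∀ X : ℕ, X0 ≤ X → ∃ Ex : Finset ℕ, (#Ex : ℝ) ≤ δ * X ∧
      ∀ n : ℕ, 1 ≤ n → n ≤ X → n ∉ Ex → ¬ IsSquare n ∧
        ∃ S : ℝ, 0 < S ∧ Tendsto (fun z : ℕ => pS n z) atTop (𝓝 S) ∧ |S - pS n K| ≤ δ * pS n K := by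
  obtain ⟨K0, hK0, h0⟩ := sing_tail (δ / 4) (by positivity)
  refine ⟨max K0 ⌈20 / δ⌉₊, hK0.trans (le_max_left _ _), fun K hK => ?_⟩
  have hKK : K0 ≤ K := (le_max_left _ _).trans hK
  have hKδ : 20 / δ ≤ K := (Nat.le_ceil _).trans (by exact_mod_cast (le_max_right _ _).trans hK)
  have hK2 : 2 ≤ K := hK0.trans hKK
  have hKp : (0 : ℝ) < K := by
    have : 0 < K := by omega
    exact_mod_cast this
  have h5 : 5 / (K : ℝ) ≤ δ / 4 := by
    rw [div_le_iff₀ hδ] at hKδ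
    rw [div_le_iff₀ hKp]
    linarith
  obtain ⟨X0, h1⟩ := h0 K hKK
  refine ⟨X0, fun X hX => ?_⟩
  obtain ⟨Ex, hEx, h2⟩ := h1 X hX
  refine ⟨Ex, hEx.trans ?_, fun n hn1 hnX hnE => ?_⟩
  · have : (0 : ℝ) ≤ X := Nat.cast_nonneg _
    nlinarith
  obtain ⟨hsq, hev⟩ := h2 n hn1 hnX hnE
  refine ⟨fun h => hsq ?_, ?_⟩
  · obtain ⟨r, hr⟩ := h
    exact ⟨(r : ℤ), by rw [hr]; push_cast; ring⟩
  obtain ⟨L, hL0, hL, hL1⟩ := PJ_lim hsq hK2 (by positivity) (by linarith) hev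
  refine ⟨pS n K * L, mul_pos (pS_pos n K) hL0, ?_, ?_⟩
  · refine (hL.const_mul (pS n K)).congr' ?_
    filter_upwards [eventually_ge_atTop K] with M hM
    rw [pS_split n hK2 hM]
  · have e : pS n K * L - pS n K = (L - 1) * pS n K := by ring
    rw [e, abs_mul, abs_of_pos (pS_pos n K)]
    apply mul_le_mul_of_nonneg_right _ (pS_pos n K).le
    linarith

/-- the least value of the partial products -/
noncomputable def cS (K : ℕ) : ℝ := ∏ p ∈ (Icc 3 K).filter Nat.Prime, (1 - 1 / ((p : ℝ) - 1))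

theorem cS_pos (K : ℕ) : 0 < cS K := by
  unfold cS
  apply prod_pos
  intro p hp
  rw [mem_filter, mem_Icc] at hp
  have hp3 : (3 : ℝ) ≤ p := by exact_mod_cast hp.1.1
  have : 1 / ((p : ℝ) - 1) ≤ 1 / 2 := by
    apply one_div_le_one_div_of_le <;> linarith
  linarith

theorem cS_le (n K : ℕ) : cS K ≤ pS n K := by
  unfold cS pS
  apply Finset.prod_le_prod
  · intro p hp
    rw [mem_filter, mem_Icc] at hp
    have hp3 : (3 : ℝ) ≤ p := by exact_mod_cast hp.1.1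
    have : 1 / ((p : ℝ) - 1) ≤ 1 / 2 := by
      apply one_div_le_one_div_of_le <;> linarith
    linarith
  · intro p hp
    rw [mem_filter, mem_Icc] at hp
    have hp3 : (3 : ℝ) ≤ p := by exact_mod_cast hp.1.1
    have h1 : (jacobiSym (n : ℤ) p : ℝ) ≤ 1 := by
      rcases jacobiSym.trichotomy (n : ℤ) p with h | h | h <;> rw [h] <;> norm_num
    have h2 : (jacobiSym (n : ℤ) p : ℝ) / (p - 1) ≤ 1 / ((p : ℝ) - 1) :=
      div_le_div_of_nonneg_right h1 (by linarith)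
    linarith

end Pool.Agent.V8H54.RS
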