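import Mathlib
import Pool.Agent.V8H54.RS.Sg

/-!
# Sums of a prime and a small square: the theorem
-/

set_option autoImplicit false

namespace Pool.Agent.V8H54.RS

open Finset Filter Topology

/-- Markov's inequality -/
theorem markov {s : Finset ℕ} {f : ℕ → ℝ} {M t : ℝ} (hf : ∀ n ∈ s, 0 ≤ f n) (ht : 0 < t)
    (h : ∑ n ∈ s, f n ≤ M) : (#(s.filter (fun n => t < f n)) : ℝ) ≤ M / t := by
  rw [le_div_iff₀ ht]
  calc (#(s.filter (fun n => t < f n)) : ℝ) * t = ∑ n ∈ s.filter (fun n => t < f n), t := by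
        rw [sum_const, nsmul_eq_mul]
    _ ≤ ∑ n ∈ s.filter (fun n => t < f n), f n := by
        apply sum_le_sum
        intro n hn
        rw [mem_filter] at hn
        exact hn.2.le
    _ ≤ ∑ n ∈ s, f n := sum_le_sum_of_subset_of_nonneg (filter_subset _ _) fun n hn _ => hf n hn
    _ ≤ M := h

/-- the mean error -/
theorem mean_err (θ : ℝ) (hθ : 1 / 6 < θ) (ε : ℝ) (hε : 0 < ε) (Kmin : ℕ) :
    ∃ K : ℕ, Kmin ≤ K ∧ ∀ᶠ X : ℕ in atTop, ∀ y : ℕ, (X : ℝ) ^ θ ≤ y → y ^ 2 ≤ X →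
      ∑ n ∈ (Icc 1 X).filter (fun n => y ^ 2 ≤ n), |Rep Set.univ n y - pS n K * (y / Real.log X)| ≤
        ε * (X * (y / Real.log X)) := by
  classical
  have hθ0 : 0 < θ := by linarith
  obtain ⟨R1, h0⟩ := trans_abs θ hθ0 (ε / 3) (by positivity)
  set K := max Kmin (max R1 2) with hK
  have hK2 : 2 ≤ K := (le_max_right _ _).trans (le_max_right _ _)
  have hKR : R1 ≤ K := (le_max_left _ _).trans (le_max_right _ _)
  refine ⟨K, le_max_left _ _, ?_⟩
  obtain ⟨κ0, hκ0, -, h0⟩ := h0 K.factorial (Nat.factorial_pos K)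
    (fun r hr1 hr2 => Nat.dvd_factorial hr1 (hr2.trans hKR))
  obtain ⟨κ1, hκ1, h1⟩ := DD_sum K.factorial (Nat.factorial_pos K) θ hθ (ε / 3) (by positivity)
  have h0 := h0 (min κ0 κ1) (by positivity) (min_le_left _ _)
  have h1 := h1 (min κ0 κ1) (by positivity) (min_le_right _ _)
  have h2 := main_sum θ hθ0 K hK2 (ε / 3) (by positivity)
  filter_upwards [h0, h1, h2, eventually_ge_atTop 2] with X h0 h1 h2 hX2 y hy1 hy2
  obtain ⟨hJ, h0⟩ := h0 y hy1 hy2
  have h0 := h0 Set.univ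
  have h1 := h1 y hy1 hy2 hJ
  have h2 := h2 y hy1
  set J := ⌊min κ0 κ1 * (y : ℝ) ^ 2⌋₊ with hJd
  set W := K.factorial with hW
  have hlogX : 0 < Real.log X := Real.log_pos (by exact_mod_cast (by omega : 1 < X))
  have hX0 : (0 : ℝ) < X := by
    have : 0 < X := by omega
    exact_mod_cast this
  set F := (Icc 1 X).filter (fun n => y ^ 2 ≤ n) with hF
  have e1 : ∑ n ∈ F, |Rep Set.univ n y - Loc Set.univ W J n y| ≤ ε / 3 * (X * (y / Real.log X)) :=
    (sum_le_sum_of_subset_of_nonneg (filter_subset _ _) fun n _ _ => abs_nonneg _).trans h0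
  have e2 : ∑ n ∈ F, |Loc Set.univ W J n y - ∑ m ∈ Icc 1 y, GG W X (n - m ^ 2)| ≤
      ε / 3 * (X * (y / Real.log X)) := by
    refine (loc_le W J X y).trans ?_
    calc (y : ℝ) * ∑ k ∈ range (X + 1), DD W J X k ≤ y * (ε / 3 * (X / Real.log X)) :=
          mul_le_mul_of_nonneg_left h1 (by positivity)
      _ = _ := by ring
  have e3 : ∑ n ∈ F, |∑ m ∈ Icc 1 y, GG W X (n - m ^ 2) - pS n K * (y / Real.log X)| ≤
      ε / 3 * (X * (y / Real.log X)) := by
    have h3 : ∀ n ∈ F, |∑ m ∈ Icc 1 y, GG W X (n - m ^ 2) - pS n K * (y / Real.log X)| ≤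
        ε / 3 * (y / Real.log X) := by
      intro n hn
      rw [hF, mem_filter] at hn
      exact h2 n hn.2
    refine (sum_le_sum h3).trans ?_
    rw [sum_const, nsmul_eq_mul]
    have h4 : (#F : ℝ) ≤ X := by
      have h5 : #F ≤ #(Icc 1 X) := card_le_card (filter_subset _ _)
      rw [Nat.card_Icc, Nat.add_sub_cancel] at h5
      exact_mod_cast h5
    calc (#F : ℝ) * (ε / 3 * (y / Real.log X)) ≤ X * (ε / 3 * (y / Real.log X)) := by gcongr
      _ = _ := by ring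
  calc ∑ n ∈ F, |Rep Set.univ n y - pS n K * (y / Real.log X)| ≤
      ∑ n ∈ F, (|Rep Set.univ n y - Loc Set.univ W J n y| +
        |Loc Set.univ W J n y - ∑ m ∈ Icc 1 y, GG W X (n - m ^ 2)| +
        |∑ m ∈ Icc 1 y, GG W X (n - m ^ 2) - pS n K * (y / Real.log X)|) := by
        apply sum_le_sum
        intro n _
        have e : Rep Set.univ n y - pS n K * (y / Real.log X) =
            (Rep Set.univ n y - Loc Set.univ W J n y) +
            (Loc Set.univ W J n y - ∑ m ∈ Icc 1 y, GG W X (n - m ^ 2)) +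
            (∑ m ∈ Icc 1 y, GG W X (n - m ^ 2) - pS n K * (y / Real.log X)) := by ring
        rw [e]
        exact (abs_add_le _ _).trans (add_le_add (abs_add_le _ _) le_rfl)
    _ ≤ _ := by
        rw [sum_add_distrib, sum_add_distrib]
        linarith

/-- **Sums of a prime and a small square.** -/
theorem final (θ : ℝ) (hθ : 1 / 6 < θ) (δ : ℝ) (hδ : 0 < δ) (hδ1 : δ ≤ 1) :
    ∀ᶠ X : ℕ in atTop, ∀ y : ℕ, (X : ℝ) ^ θ ≤ y → y ^ 2 ≤ X →
      ∃ Bad ⊆ Icc 1 X, (#Bad : ℝ) ≤ δ * X ∧ ∀ n ∈ Icc 1 X, n ∉ Bad → y ^ 2 ≤ n → ¬ IsSquare n ∧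
        ∃ S : ℝ, 0 < S ∧ Tendsto (fun z : ℕ => pS n z) atTop (𝓝 S) ∧
          |Rep Set.univ n y - S * (y / Real.log X)| ≤ δ * (S * (y / Real.log X)) := by
  classical
  obtain ⟨K0, hK02, h0⟩ := series (δ / 4) (by positivity) (by linarith)
  -- the lower bound
  obtain ⟨X1, h1⟩ := h0 K0 le_rfl
  set c := (1 - δ / 4) * cS K0 with hc
  have hc0 : 0 < c := mul_pos (by linarith) (cS_pos K0)
  obtain ⟨K, hK, h2⟩ := mean_err θ hθ (δ / 4 * (δ * c / 4)) (by positivity) K0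
  obtain ⟨X2, h3⟩ := h0 K hK
  filter_upwards [h2, eventually_ge_atTop X1, eventually_ge_atTop X2, eventually_ge_atTop 2] with
    X h2 hX1 hX2 hX3 y hy1 hy2
  have h2 := h2 y hy1 hy2
  obtain ⟨Ex1, hEx1, g1⟩ := h1 X hX1
  obtain ⟨Ex2, hEx2, g2⟩ := h3 X hX2
  have hlogX : 0 < Real.log X := Real.log_pos (by exact_mod_cast (by omega : 1 < X))
  have hX0 : (0 : ℝ) < X := by
    have : 0 < X := by omega
    exact_mod_cast this
  have hy0 : (0 : ℝ) < y := lt_of_lt_of_le (by positivity) hy1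
  set Y : ℝ := y / Real.log X with hY
  have hY0 : 0 < Y := by positivity
  have hm := markov (t := δ * c / 4 * Y) (fun n _ => abs_nonneg _) (by positivity) h2
  set B := ((Icc 1 X).filter (fun n => y ^ 2 ≤ n)).filter
    (fun n => δ * c / 4 * Y < |Rep Set.univ n y - pS n K * Y|) with hB
  have hm2 : (#B : ℝ) ≤ δ / 4 * X := by
    refine hm.trans (le_of_eq ?_)
    field_simp
  refine ⟨(Ex1 ∪ Ex2 ∪ B) ∩ Icc 1 X, inter_subset_right, ?_, fun n hn hnB hny => ?_⟩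
  · have h4 : (#((Ex1 ∪ Ex2 ∪ B) ∩ Icc 1 X) : ℝ) ≤ (#Ex1 : ℝ) + #Ex2 + #B := by
      have h5 := card_le_card (inter_subset_left (s₁ := Ex1 ∪ Ex2 ∪ B) (s₂ := Icc 1 X))
      have h6 := card_union_le (Ex1 ∪ Ex2) B
      have h7 := card_union_le Ex1 Ex2
      exact_mod_cast h5.trans (h6.trans (Nat.add_le_add_right h7 _))
    have : 0 < δ * (X : ℝ) := by positivity
    linarith
  · rw [mem_inter, not_and'] at hnB
    have hnB := hnB hn
    rw [mem_union, mem_union, not_or, not_or] at hnB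
    obtain ⟨⟨hn1, hn2⟩, hn3⟩ := hnB
    have hn' := mem_Icc.1 hn
    obtain ⟨hsq, S, hS0, hS, hS1⟩ := g2 n hn'.1 hn'.2 hn2
    obtain ⟨-, S', hS0', hS', hS1'⟩ := g1 n hn'.1 hn'.2 hn1
    have hSS : S' = S := tendsto_nhds_unique hS' hS
    rw [hSS] at hS1'
    refine ⟨hsq, S, hS0, hS, ?_⟩
    have hpK := pS_pos n K
    have hpK0 := pS_pos n K0
    have hcS := cS_le n K0
    have hSc : c ≤ S := by
      rw [abs_le] at hS1'
      calc c = (1 - δ / 4) * cS K0 := hc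
        _ ≤ (1 - δ / 4) * pS n K0 := by gcongr; linarith
        _ ≤ S := by linarith
    have hb : |Rep Set.univ n y - pS n K * Y| ≤ δ * c / 4 * Y := by
      by_contra h
      push Not at h
      apply hn3
      rw [hB, mem_filter, mem_filter]
      exact ⟨⟨hn, hny⟩, h⟩
    have hpKS : pS n K ≤ 2 * S := by
      rw [abs_le] at hS1
      nlinarith
    have e : Rep Set.univ n y - S * Y = (Rep Set.univ n y - pS n K * Y) - (S - pS n K) * Y := by ring
    rw [e]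
    refine (abs_sub _ _).trans ?_
    rw [abs_mul, abs_of_pos hY0]
    have h5 : |S - pS n K| * Y ≤ (δ / 4 * (2 * S)) * Y := by
      apply mul_le_mul_of_nonneg_right _ hY0.le
      refine hS1.trans ?_
      gcongr
    have h6 : δ * c / 4 * Y ≤ δ * S / 4 * Y := by gcongr
    have h7 : 0 < δ * S * Y := by positivity
    have h8 : δ * (S * Y) = δ * S * Y := by ring
    have h9 : δ / 4 * (2 * S) * Y = δ * S * Y / 2 := by ring
    have h10 : δ * S / 4 * Y = δ * S * Y / 4 := by ring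
    rw [h8]
    rw [h9] at h5
    rw [h10] at h6
    linarith

/-- the transference theorem for almost all `n` -/
theorem trans_final (θ : ℝ) (hθ : 0 < θ) (δ : ℝ) (hδ : 0 < δ) :
    ∃ R : ℕ, ∀ W : ℕ, 1 ≤ W → (∀ r : ℕ, 1 ≤ r → r ≤ R → r ∣ W) → ∃ κ₀ : ℝ, 0 < κ₀ ∧
      ∀ κ : ℝ, 0 < κ → κ ≤ κ₀ → ∀ᶠ X : ℕ in atTop, ∀ y : ℕ, (X : ℝ) ^ θ ≤ y → y ^ 2 ≤ X →
        ∀ Q : Set ℕ, ∃ Bad ⊆ Icc 1 X, (#Bad : ℝ) ≤ δ * X ∧ ∀ n ∈ Icc 1 X, n ∉ Bad →
          |Rep Q n y - Loc Q W ⌊κ * (y : ℝ) ^ 2⌋₊ n y| ≤ δ * (y / Real.log X) := by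
  classical
  obtain ⟨R, h0⟩ := trans_abs θ hθ (δ * δ) (by positivity)
  refine ⟨R, fun W hW hWd => ?_⟩
  obtain ⟨κ₀, hκ₀, -, h0⟩ := h0 W hW hWd
  refine ⟨κ₀, hκ₀, fun κ hκ hκκ => ?_⟩
  filter_upwards [h0 κ hκ hκκ, eventually_ge_atTop 2] with X h0 hX2 y hy1 hy2 Q
  have h1 := (h0 y hy1 hy2).2 Q
  have hlogX : 0 < Real.log X := Real.log_pos (by exact_mod_cast (by omega : 1 < X))
  have hX0 : (0 : ℝ) < X := by
    have : 0 < X := by omega
    exact_mod_cast this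
  have hy0 : (0 : ℝ) < y := lt_of_lt_of_le (by positivity) hy1
  have hY0 : 0 < (y : ℝ) / Real.log X := by positivity
  have hm := markov (t := δ * (y / Real.log X)) (fun n _ => abs_nonneg _) (by positivity) h1
  refine ⟨_, filter_subset _ _, hm.trans (le_of_eq ?_), fun n hn hnB => ?_⟩
  · field_simp
  · by_contra h
    push Not at h
    exact hnB (mem_filter.2 ⟨hn, h⟩)

end Pool.Agent.V8H54.RS
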